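import Mathlib
import Pool.Agent.TH605.MS.Final
set_option autoImplicit false
open MeasureTheory Set Filter Topology Metric
open Pool.Agent.TH605.MS

/-!
# The weak form of the Mumford–Shah conjecture fails in a thin annular domain

There are a bounded connected open set `Ω ⊆ ℝ²` and a local minimizer `u ∈ M(Ω)` of
`E(u, A) = ∫_A |∇u|² dx + H¹(S_u ∩ A)` such that `Ω ∩ closure S_u` is a smooth simple closed curve,
and so is not the union of the images of an admissible family of arcs.

The example is explicit.  Let `F(X) = 25 X + (10/3) X³ + X⁵/5` and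
`û(X) = √15 Im(X - 1/X)`.  The domain is `Ω = F({||X|² - 1| < 1/20000})`, the curve is
`Γ = F({|X| = 1})`, the function `u` is `û ∘ F⁻¹` outside `Γ` and `12` inside.  Minimality is proved
with an explicit calibration (in potential form), see `Pool/Agent/TH605/MS/Field.lean`, and the chain
rule in `SBV_loc`.
-/

namespace Pool.Agent.Results.MP_099f24_an.ClosedLoop

/-- **The weak form of the Mumford–Shah conjecture is false**: a local minimizer on a bounded
connected open set whose discontinuity set is a smooth simple closed curve, not a union of an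
admissible family of arcs. -/
theorem result : ∃ (Ω : Set ℂ) (u : ℂ → ℝ), IsOpen Ω ∧ Bornology.IsBounded Ω ∧ IsConnected Ω ∧
    IsLocalMinimizer Ω u ∧
    (∃ f : ℝ → ℂ, ContDiff ℝ (⊤ : ℕ∞) f ∧ (∀ t, deriv f t ≠ 0) ∧
      Function.Periodic f (2 * Real.pi) ∧ InjOn f (Ico 0 (2 * Real.pi)) ∧
      range f = Ω ∩ closure (discSet Ω u)) ∧
    ¬ ∃ (ι : Type) (c : ι → Arc Ω), Countable ι ∧ Admissible c ∧
      (⋃ i, (c i).image) = Ω ∩ closure (discSet Ω u) :=
  counterexample

end Pool.Agent.Results.MP_099f24_an.ClosedLoop
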